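import Pool.Agent.Q157.OM.Stm

/-! # Project OM: some permutation does not occur (job bad) -/

set_option autoImplicit false
set_option linter.all false

namespace Pool.Agent.Q277.OM

open Finset
open Pool.Agent.Q157.OM

instance : Finite Letter :=
  Finite.of_surjective (fun b : Bool => if b then Letter.A else Letter.B) (by
    intro l
    cases l
    · exact ⟨true, rfl⟩
    · exact ⟨false, rfl⟩)

theorem count_add (l : List Letter) : l.count Letter.A + l.count Letter.B = l.length := by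
  induction l with
  | nil => rfl
  | cons a l ih =>
    cases a
    · rw [List.count_cons_self, List.count_cons_of_ne (by decide), List.length_cons]
      omega
    · rw [List.count_cons_self, List.count_cons_of_ne (by decide), List.length_cons]
      omega

theorem len_pat {r : ℕ} {P : List Letter} (h : IsPattern r P) : P.length = 2 * r := by
  rw [← count_add, h.1, h.2.1]
  ring

/-- the property of `P0`, `P1` in the proof -/
def Good (r : ℕ) (Ps : Set (List Letter)) (i m : ℕ) (P0 P1 : List Letter) : Prop :=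
  ∀ σ : Equiv.Perm (Fin m), ∃ y : Fin m → Finset ℕ, Sq r Ps m y ∧
    (∀ a b, el (y a) i < el (y b) i ↔ σ a < σ b) ∧
    ∀ a b, a < b → (σ a < σ b → word (y a) (y b) = P0) ∧ (σ b < σ a → word (y a) (y b) = P1)

theorem good_exists (h7 : S_ramsey) {r : ℕ} {Ps : Set (List Letter)}
    (hPs : ∀ P ∈ Ps, IsPattern r P) {i : ℕ}
    (hocc : ∀ (K : ℕ) (τ : Equiv.Perm (Fin K)), Occ r Ps i K τ) :
    ∃ P0 ∈ Ps, ∃ P1 ∈ Ps, ∀ n : ℕ, ∃ m, n ≤ m ∧ Good r Ps i m P0 P1 := by
  classical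
  have hfin : Ps.Finite := (List.finite_length_eq Letter (2 * r)).subset
    (fun P hP => len_pat (hPs P hP))
  haveI : Finite Ps := hfin
  haveI : Nonempty Ps := by
    obtain ⟨x, hx, -⟩ := hocc 2 1
    exact ⟨⟨_, (hx.2 0 1 (by decide)).2.2⟩⟩
  have hm : ∀ m : ℕ, ∃ p : Ps × Ps, Good r Ps i m p.1.1 p.2.1 := by
    intro m
    obtain ⟨K, τ, h⟩ := h7 Ps m
    obtain ⟨x, hx, hxi⟩ := hocc K τ
    obtain ⟨c0, c1, hc⟩ := h (fun a b => if hab : a < b then ⟨word (x a) (x b), (hx.2 a b hab).2.2⟩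
      else Classical.arbitrary Ps)
    refine ⟨(c0, c1), fun σ => ?_⟩
    obtain ⟨φ, hφ1, hφ2, hφ3⟩ := hc σ
    refine ⟨fun a => x (φ a), ⟨fun a => hx.1 _, fun a b hab => hx.2 _ _ (φ.lt_iff_lt.2 hab)⟩, ?_, ?_⟩
    · intro a b
      rw [hxi, hφ1]
    · intro a b hab
      have hab' : φ a < φ b := φ.lt_iff_lt.2 hab
      constructor
      · intro hσ
        have h8 := hφ2 a b hab hσ
        simp only [dif_pos hab'] at h8
        exact congrArg Subtype.val h8
      · intro hσ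
        have h8 := hφ3 a b hab hσ
        simp only [dif_pos hab'] at h8
        exact congrArg Subtype.val h8
  choose p hp using hm
  obtain ⟨q, hq⟩ := Finite.exists_infinite_fiber p
  refine ⟨q.1.1, q.1.2, q.2.1, q.2.2, fun n => ?_⟩
  have hinf : (p ⁻¹' {q}).Infinite := Set.infinite_coe_iff.1 hq
  obtain ⟨m, hm1, hm2⟩ := hinf.exists_gt n
  refine ⟨m, hm2.le, ?_⟩
  have h9 := hp m
  rw [show p m = q from hm1] at h9
  exact h9

theorem coll {r : ℕ} {Ps : Set (List Letter)} (h5 : S_sq) (hr : 1 ≤ r) {P : List Letter}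
    (h : ∀ n : ℕ, ∃ m, n ≤ m ∧ ∃ y : Fin m → Finset ℕ, Sq r Ps m y ∧
      ∀ a b, a < b → word (y a) (y b) = P) : Collectable r P := by
  intro k
  obtain ⟨m, hkm, y, hy, hyP⟩ := h k
  have hy' : Sq r {P} m y := ⟨hy.1, fun a b hab =>
    ⟨(hy.2 a b hab).1, (hy.2 a b hab).2.1, hyP a b hab⟩⟩
  obtain ⟨e1, e2, e3, -⟩ := (h5 r {P} hr).2 m y hy'
  exact ⟨_, _, e1, e2, by rw [e3]; exact hkm⟩

theorem bad (h1 : S_el) (h2 : S_word) (h3 : S_bal) (h4 : S_sq) (h5 : S_struct) (h6 : S_split)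
    (h7 : S_ramsey) : S_bad := by
  classical
  intro r Ps hr hPs hH i hi
  by_contra hcon
  push Not at hcon
  obtain ⟨P0, hP0, P1, hP1, hG⟩ := good_exists h7 hPs hcon
  have hC0 : Collectable r P0 := by
    refine coll (Ps := Ps) h4 hr fun n => ?_
    obtain ⟨m, hm, hg⟩ := hG n
    obtain ⟨y, hy1, hy2, hy3⟩ := hg 1
    exact ⟨m, hm, y, hy1, fun a b hab => (hy3 a b hab).1 hab⟩
  have hC1 : Collectable r P1 := by
    refine coll (Ps := Ps) h4 hr fun n => ?_
    obtain ⟨m, hm, hg⟩ := hG n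
    obtain ⟨y, hy1, hy2, hy3⟩ := hg Fin.revPerm
    exact ⟨m, hm, y, hy1, fun a b hab => (hy3 a b hab).2 (by
      rw [Fin.revPerm_apply, Fin.revPerm_apply]
      exact Fin.rev_lt_rev.2 hab)⟩
  have hne : P0 ≠ P1 := by
    intro he
    obtain ⟨m, hm, hg⟩ := hG 2
    obtain ⟨y, hy1, hy2, hy3⟩ := hg 1
    obtain ⟨y', hy1', hy2', hy3'⟩ := hg Fin.revPerm
    obtain ⟨a, ha⟩ : ∃ a : Fin m, a = ⟨0, by omega⟩ := ⟨_, rfl⟩
    obtain ⟨b, hb⟩ : ∃ b : Fin m, b = ⟨1, by omega⟩ := ⟨_, rfl⟩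
    have hab : a < b := by rw [ha, hb, Fin.mk_lt_mk]; omega
    have hab' : Fin.revPerm b < Fin.revPerm a := by
      rw [Fin.revPerm_apply, Fin.revPerm_apply]
      exact Fin.rev_lt_rev.2 hab
    have e1 := (hy3 a b hab).1 hab
    have e2 := (hy3' a b hab).2 hab'
    have e3 := (h2 r (y a) (y b) (y' a) (y' b) (hy1.1 _) (hy1.1 _) (hy1'.1 _) (hy1'.1 _)
      (hy1.2 a b hab).1 (hy1'.2 a b hab).1).1 (by rw [e1, e2, he]) i hi i hi
    rw [hy2, hy2'] at e3
    exact absurd (e3.1 hab) (not_lt.2 hab'.le)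
  have hbalS : ∀ (m : ℕ) (y : Fin m → Finset ℕ), Sq r Ps m y → ∀ a b : Fin m, a < b → ∀ c, 0 < c →
      c < r → (Bal (word (y a) (y b)) c ↔
        el (y a) (c - 1) < el (y b) c ∧ el (y b) (c - 1) < el (y a) c) := fun m y hy a b hab =>
    (h3 r (y a) (y b) (hy.1 a) (hy.1 b) (hy.2 a b hab).1).2.2.2
  have key : ∀ (P Q : List Letter) (c : ℕ), 0 < c → c < r → ∀ (m : ℕ) (y : Fin m → Finset ℕ),
      Sq r Ps m y → ∀ a0 a1 a2 a3 : Fin m, a0 < a1 → a1 < a2 → a2 < a3 →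
      word (y a0) (y a1) = Q → word (y a2) (y a3) = Q → word (y a0) (y a2) = P →
      word (y a0) (y a3) = P → word (y a1) (y a2) = P → word (y a1) (y a3) = P →
      Bal P c → Bal Q c := by
    intro P Q c hc hcr m y hy a0 a1 a2 a3 h01 h12 h23 w01 w23 w02 w03 w12 w13 hP
    by_contra hQ
    have b01 := hbalS m y hy a0 a1 h01 c hc hcr
    have b23 := hbalS m y hy a2 a3 h23 c hc hcr
    have b02 := hbalS m y hy a0 a2 (h01.trans h12) c hc hcr
    have b03 := hbalS m y hy a0 a3 ((h01.trans h12).trans h23) c hc hcr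
    have b12 := hbalS m y hy a1 a2 h12 c hc hcr
    have b13 := hbalS m y hy a1 a3 (h12.trans h23) c hc hcr
    rw [w01] at b01
    rw [w23] at b23
    rw [w02] at b02
    rw [w03] at b03
    rw [w12] at b12
    rw [w13] at b13
    have c01 : ¬ (el (y a0) (c - 1) < el (y a1) c ∧ el (y a1) (c - 1) < el (y a0) c) :=
      fun h => hQ (b01.2 h)
    have c23 : ¬ (el (y a2) (c - 1) < el (y a3) c ∧ el (y a3) (c - 1) < el (y a2) c) :=
      fun h => hQ (b23.2 h)
    have c02 := b02.1 hP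
    have c03 := b03.1 hP
    have c12 := b12.1 hP
    have c13 := b13.1 hP
    clear b01 b23 b02 b03 b12 b13
    omega
  have hbal : ∀ c, 0 < c → c < r → (Bal P0 c ↔ Bal P1 c) := by
    intro c hc hcr
    obtain ⟨m, hm, hg⟩ := hG 4
    obtain ⟨a0, ha0⟩ : ∃ a : Fin m, a = ⟨0, by omega⟩ := ⟨_, rfl⟩
    obtain ⟨a1, ha1⟩ : ∃ a : Fin m, a = ⟨1, by omega⟩ := ⟨_, rfl⟩
    obtain ⟨a2, ha2⟩ : ∃ a : Fin m, a = ⟨2, by omega⟩ := ⟨_, rfl⟩
    obtain ⟨a3, ha3⟩ : ∃ a : Fin m, a = ⟨3, by omega⟩ := ⟨_, rfl⟩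
    have h01 : a0 < a1 := by rw [ha0, ha1, Fin.mk_lt_mk]; omega
    have h12 : a1 < a2 := by rw [ha1, ha2, Fin.mk_lt_mk]; omega
    have h23 : a2 < a3 := by rw [ha2, ha3, Fin.mk_lt_mk]; omega
    have n01 := h01.ne
    have n12 := h12.ne
    have n23 := h23.ne
    have n02 := (h01.trans h12).ne
    have n13 := (h12.trans h23).ne
    have n03 := ((h01.trans h12).trans h23).ne
    constructor
    · obtain ⟨σ, hσ⟩ : ∃ σ : Equiv.Perm (Fin m), σ = Equiv.swap a0 a1 * Equiv.swap a2 a3 := ⟨_, rfl⟩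
      have s0 : σ a0 = a1 := by
        rw [hσ, Equiv.Perm.mul_apply, Equiv.swap_apply_of_ne_of_ne n02 n03, Equiv.swap_apply_left]
      have s1 : σ a1 = a0 := by
        rw [hσ, Equiv.Perm.mul_apply, Equiv.swap_apply_of_ne_of_ne n12 n13, Equiv.swap_apply_right]
      have s2 : σ a2 = a3 := by
        rw [hσ, Equiv.Perm.mul_apply, Equiv.swap_apply_left,
          Equiv.swap_apply_of_ne_of_ne n03.symm n13.symm]
      have s3 : σ a3 = a2 := by
        rw [hσ, Equiv.Perm.mul_apply, Equiv.swap_apply_right,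
          Equiv.swap_apply_of_ne_of_ne n02.symm n12.symm]
      obtain ⟨y, hy1, hy2, hy3⟩ := hg σ
      refine key P0 P1 c hc hcr m y hy1 a0 a1 a2 a3 h01 h12 h23
        ((hy3 a0 a1 h01).2 (by rw [s0, s1]; exact h01))
        ((hy3 a2 a3 h23).2 (by rw [s2, s3]; exact h23))
        ((hy3 a0 a2 (h01.trans h12)).1 (by rw [s0, s2]; exact h12.trans h23))
        ((hy3 a0 a3 ((h01.trans h12).trans h23)).1 (by rw [s0, s3]; exact h12))
        ((hy3 a1 a2 h12).1 (by rw [s1, s2]; exact (h01.trans h12).trans h23))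
        ((hy3 a1 a3 (h12.trans h23)).1 (by rw [s1, s3]; exact h01.trans h12))
    · obtain ⟨σ, hσ⟩ : ∃ σ : Equiv.Perm (Fin m), σ = Equiv.swap a0 a2 * Equiv.swap a1 a3 := ⟨_, rfl⟩
      have s0 : σ a0 = a2 := by
        rw [hσ, Equiv.Perm.mul_apply, Equiv.swap_apply_of_ne_of_ne n01 n03, Equiv.swap_apply_left]
      have s1 : σ a1 = a3 := by
        rw [hσ, Equiv.Perm.mul_apply, Equiv.swap_apply_left,
          Equiv.swap_apply_of_ne_of_ne n03.symm n23.symm]
      have s2 : σ a2 = a0 := by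
        rw [hσ, Equiv.Perm.mul_apply, Equiv.swap_apply_of_ne_of_ne n12.symm n23,
          Equiv.swap_apply_right]
      have s3 : σ a3 = a1 := by
        rw [hσ, Equiv.Perm.mul_apply, Equiv.swap_apply_right,
          Equiv.swap_apply_of_ne_of_ne n01.symm n12]
      obtain ⟨y, hy1, hy2, hy3⟩ := hg σ
      refine key P1 P0 c hc hcr m y hy1 a0 a1 a2 a3 h01 h12 h23
        ((hy3 a0 a1 h01).1 (by rw [s0, s1]; exact h23))
        ((hy3 a2 a3 h23).1 (by rw [s2, s3]; exact h01))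
        ((hy3 a0 a2 (h01.trans h12)).2 (by rw [s0, s2]; exact h01.trans h12))
        ((hy3 a0 a3 ((h01.trans h12).trans h23)).2 (by rw [s0, s3]; exact h12))
        ((hy3 a1 a2 h12).2 (by rw [s1, s2]; exact (h01.trans h12).trans h23))
        ((hy3 a1 a3 (h12.trans h23)).2 (by rw [s1, s3]; exact h12.trans h23))
  have hl := h6 r P0 P1 (len_pat (hPs P0 hP0)) (len_pat (hPs P1 hP1)) hbal (by
    intro R hR
    rw [List.mem_cons, List.mem_singleton] at hR
    rcases hR with rfl | rfl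
    · exact h5 r R hr (hPs R hP0) hC0
    · exact h5 r R hr (hPs R hP1) hC1)
  exact hH P0 hP0 P1 hP1 ⟨hne, hC0, hC1, hl⟩

end Pool.Agent.Q277.OM
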