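import Pool.Agent.Q157.OM.Stm

/-! # Project OM: the structure of a collectable pattern (job struct) -/

set_option autoImplicit false
set_option linter.all false

namespace Pool.Agent.Q277.OM

open Finset
open Pool.Agent.Q157.OM

theorem struct (h1 : S_el) (h2 : S_word) (h3 : S_bal) (h4 : S_seg) (h5 : S_sq) : S_struct := by
  intro r P hr hP hC a b hab hbr ha hb hni
  obtain ⟨W, N, hM, hN, hk⟩ := hC (r + 1)
  obtain ⟨x, hx, -⟩ := (h5 r {P} hr).1 N.card W N hM hN rfl
  generalize N.card = k at *
  have hw : ∀ s t : Fin k, s < t → word (x s) (x t) = P := fun s t h => (hx.2 s t h).2.2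
  have hcmp : ∀ s t s' t' : Fin k, s < t → s' < t' → ∀ i < r, ∀ j < r,
      (el (x s) i < el (x t) j ↔ el (x s') i < el (x t') j) := by
    intro s t s' t' hst hst'
    exact (h2 r (x s) (x t) (x s') (x t') (hx.1 s) (hx.1 t) (hx.1 s') (hx.1 t')
      (hx.2 s t hst).1 (hx.2 s' t' hst').1).1 ((hw s t hst).trans (hw s' t' hst').symm)
  have hne : ∀ s t : Fin k, s < t → ∀ i < r, ∀ j < r, el (x s) i ≠ el (x t) j := by
    intro s t hst i hi j hj h
    have e1 := h1.1 (x s) i (by rw [hx.1]; exact hi)
    have e2 := h1.1 (x t) j (by rw [hx.1]; exact hj)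
    rw [h] at e1
    exact (Finset.disjoint_left.1 (hx.2 s t hst).1) e1 e2
  have hmono : ∀ (s : Fin k) (i j : ℕ), i < j → j < r → el (x s) i < el (x s) j := by
    intro s i j hij hj
    exact h1.2.1 (x s) i j hij (by rw [hx.1]; exact hj)
  have hk0 : 0 < k := by omega
  have hk1 : 1 < k := by omega
  obtain ⟨s0, hs0⟩ : ∃ s : Fin k, s = ⟨0, hk0⟩ := ⟨_, rfl⟩
  obtain ⟨s1, hs1⟩ : ∃ s : Fin k, s = ⟨1, hk1⟩ := ⟨_, rfl⟩
  have h01 : s0 < s1 := by rw [hs0, hs1]; exact Nat.zero_lt_one
  have hbal : ∀ i, 0 < i → i < r → (Bal P i ↔ el (x s0) (i - 1) < el (x s1) i ∧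
      el (x s1) (i - 1) < el (x s0) i) := by
    intro i hi hir
    have := (h3 r (x s0) (x s1) (hx.1 _) (hx.1 _) (hx.2 s0 s1 h01).1).2.2.2 i hi hir
    rwa [hw s0 s1 h01] at this
  have hseg := h4 r (x s0) (x s1) (hx.1 _) (hx.1 _) (hx.2 s0 s1 h01).1 a b hab hbr
    (fun h => (hbal a h (by omega)).1 (ha h)) (fun h => (hbal b (by omega) h).1 (hb h))
  rw [hw s0 s1 h01] at hseg
  have har : a < r := by omega
  rcases lt_or_gt_of_ne (hne s0 s1 h01 a har a har) with hlt | hgt
  · -- the first edge comes first
    refine ⟨true, hseg.1 ?_⟩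
    have hA : ∀ n, a + n + 1 < b → el (x s0) (a + n + 1) < el (x s1) (a + n) := by
      intro n
      induction n with
      | zero =>
        intro hn
        have h6 := hni (a + 1) (by omega) (by omega)
        rw [hbal (a + 1) (by omega) (by omega), Nat.add_sub_cancel] at h6
        change el (x s0) (a + 1) < el (x s1) a
        by_contra hc
        apply h6
        have e1 := hne s0 s1 h01 (a + 1) (by omega) a (by omega)
        have e2 := hmono s1 a (a + 1) (by omega) (by omega)
        constructor <;> omega
      | succ n ih =>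
        intro hn
        have ih' := ih (by omega)
        have h6 := hni (a + (n + 1) + 1) (by omega) (by omega)
        rw [hbal (a + (n + 1) + 1) (by omega) (by omega), Nat.add_sub_cancel] at h6
        by_contra hc
        apply h6
        have e1 := hne s0 s1 h01 (a + (n + 1) + 1) (by omega) (a + (n + 1)) (by omega)
        have e2 := hmono s1 (a + (n + 1)) (a + (n + 1) + 1) (by omega) (by omega)
        have e3 := hmono s1 (a + n) (a + (n + 1)) (by omega) (by omega)
        have e4 : a + n + 1 = a + (n + 1) := by ring
        rw [e4] at ih'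
        constructor <;> omega
    rcases Nat.eq_or_lt_of_le (show a ≤ b - 1 by omega) with hab' | hab'
    · rw [← hab']
      exact hlt
    · -- the chain
      have hch : ∀ n (hn : n < k), 0 < n → a + n ≤ b - 1 →
          el (x s0) (b - 1) < el (x ⟨n, hn⟩) (b - 1 - n) := by
        intro n
        induction n with
        | zero => intro _ h; omega
        | succ n ih =>
          intro hn _ hn2
          have hstep : el (x ⟨n, by omega⟩) (b - 1 - n) < el (x ⟨n + 1, hn⟩) (b - 1 - (n + 1)) := by
            have h7 := hA (b - 1 - (n + 1) - a) (by omega)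
            have e1 : a + (b - 1 - (n + 1) - a) + 1 = b - 1 - n := by omega
            have e2 : a + (b - 1 - (n + 1) - a) = b - 1 - (n + 1) := by omega
            rw [e1, e2] at h7
            exact (hcmp s0 s1 ⟨n, by omega⟩ ⟨n + 1, hn⟩ h01 (by
              rw [Fin.mk_lt_mk]; omega) (b - 1 - n) (by omega) (b - 1 - (n + 1)) (by omega)).1 h7
          rcases Nat.eq_zero_or_pos n with h0 | h0
          · subst h0
            have e3 : (⟨0, by omega⟩ : Fin k) = s0 := hs0.symm
            rw [e3, Nat.sub_zero] at hstep
            exact hstep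
          · exact (ih (by omega) h0 (by omega)).trans hstep
      have h8 := hch (b - 1 - a) (by omega) (by omega) (by omega)
      have e1 : b - 1 - (b - 1 - a) = a := by omega
      rw [e1] at h8
      exact (hcmp s0 ⟨b - 1 - a, by omega⟩ s0 s1 (by
        rw [hs0, Fin.mk_lt_mk]; omega) h01 (b - 1) (by omega) a har).1 h8
  · -- the second edge comes first
    refine ⟨false, hseg.2 ?_⟩
    have hA : ∀ n, a + n + 1 < b → el (x s1) (a + n + 1) < el (x s0) (a + n) := by
      intro n
      induction n with
      | zero =>
        intro hn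
        have h6 := hni (a + 1) (by omega) (by omega)
        rw [hbal (a + 1) (by omega) (by omega), Nat.add_sub_cancel] at h6
        change el (x s1) (a + 1) < el (x s0) a
        by_contra hc
        apply h6
        have e1 := hne s0 s1 h01 a (by omega) (a + 1) (by omega)
        have e2 := hmono s0 a (a + 1) (by omega) (by omega)
        constructor <;> omega
      | succ n ih =>
        intro hn
        have ih' := ih (by omega)
        have h6 := hni (a + (n + 1) + 1) (by omega) (by omega)
        rw [hbal (a + (n + 1) + 1) (by omega) (by omega), Nat.add_sub_cancel] at h6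
        by_contra hc
        apply h6
        have e1 := hne s0 s1 h01 (a + (n + 1)) (by omega) (a + (n + 1) + 1) (by omega)
        have e2 := hmono s0 (a + (n + 1)) (a + (n + 1) + 1) (by omega) (by omega)
        have e3 := hmono s0 (a + n) (a + (n + 1)) (by omega) (by omega)
        have e4 : a + n + 1 = a + (n + 1) := by ring
        rw [e4] at ih'
        constructor <;> omega
    rcases Nat.eq_or_lt_of_le (show a ≤ b - 1 by omega) with hab' | hab'
    · rw [← hab']
      exact hgt
    · have hch : ∀ n (hn : n < k), 0 < n → a + n ≤ b - 1 →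
          el (x ⟨n, hn⟩) (a + n) < el (x s0) a := by
        intro n
        induction n with
        | zero => intro _ h; omega
        | succ n ih =>
          intro hn _ hn2
          have hstep : el (x ⟨n + 1, hn⟩) (a + (n + 1)) < el (x ⟨n, by omega⟩) (a + n) := by
            have h7 := hA n (by omega)
            have e1 := hne ⟨n, by omega⟩ ⟨n + 1, hn⟩ (by rw [Fin.mk_lt_mk]; omega) (a + n)
              (by omega) (a + (n + 1)) (by omega)
            have e2 := hcmp s0 s1 ⟨n, by omega⟩ ⟨n + 1, hn⟩ h01 (by
              rw [Fin.mk_lt_mk]; omega) (a + n) (by omega) (a + (n + 1)) (by omega)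
            have e4 : a + n + 1 = a + (n + 1) := by ring
            rw [e4] at h7
            by_contra hc
            have e5 := e2.2 (by omega)
            omega
          rcases Nat.eq_zero_or_pos n with h0 | h0
          · subst h0
            have e3 : (⟨0, by omega⟩ : Fin k) = s0 := hs0.symm
            rw [e3] at hstep
            exact hstep
          · exact hstep.trans (ih (by omega) h0 (by omega))
      have h8 := hch (b - 1 - a) (by omega) (by omega) (by omega)
      have e1 : a + (b - 1 - a) = b - 1 := by omega
      rw [e1] at h8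
      have e2 := hcmp s0 ⟨b - 1 - a, by omega⟩ s0 s1 (by
        rw [hs0, Fin.mk_lt_mk]; omega) h01 a har (b - 1) (by omega)
      have e3 := hne s0 s1 h01 a har (b - 1) (by omega)
      by_contra hc
      have e4 := e2.2 (by omega)
      omega

end Pool.Agent.Q277.OM
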